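import Pool.Agent.W626.FR.Stms

/-!
Project FR: opened vertices (TaskOpn).
-/

set_option autoImplicit false

namespace Pool.Agent.W239.FRO

open MeasureTheory ProbabilityTheory Filter FrogGW FrogRec
open scoped ENNReal NNReal Classical Topology

/-- opened in at most `m` steps -/
def OM (N : ℕ) (η : Ix → Bool) (S : Set (List ℕ)) : ℕ → List ℕ → Prop
  | 0, y => ∃ z ∈ S, y <:+ z ∧ y.length < N
  | m + 1, y => OM N η S m y ∨ ∃ x t z : List ℕ, OM N η S m x ∧ η (x, t, z) = true ∧ t <:+ y ∧
      y <:+ z ∧ y.length < N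

theorem opn_iff (N : ℕ) (η : Ix → Bool) (S : Set (List ℕ)) (y : List ℕ) :
    Opn N η S y ↔ ∃ m, OM N η S m y := by
  constructor
  · intro h
    induction h with
    | start h1 h2 h3 => exact ⟨0, _, h1, h2, h3⟩
    | step _ h2 h3 h4 h5 ih =>
      obtain ⟨m, hm⟩ := ih
      exact ⟨m + 1, Or.inr ⟨_, _, _, hm, h2, h3, h4, h5⟩⟩
  · rintro ⟨m, hm⟩
    induction m generalizing y with
    | zero =>
      obtain ⟨z, h1, h2, h3⟩ := hm
      exact Opn.start h1 h2 h3
    | succ m ih =>
      rcases hm with h | ⟨x, t, z, h1, h2, h3, h4, h5⟩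
      · exact ih _ h
      · exact Opn.step (ih _ h1) h2 h3 h4 h5

theorem measurable_OM (N : ℕ) (S : Set (List ℕ)) (m : ℕ) (y : List ℕ) :
    MeasurableSet {η : Ix → Bool | OM N η S m y} := by
  induction m generalizing y with
  | zero => exact MeasurableSet.const _
  | succ m ih =>
    have h1 : {η : Ix → Bool | OM N η S (m + 1) y} = {η | OM N η S m y} ∪
        ⋃ x : List ℕ, ⋃ t : List ℕ, ⋃ z : List ℕ, ({η | OM N η S m x} ∩
          ({η | η (x, t, z) = true} ∩ {_η | t <:+ y ∧ y <:+ z ∧ y.length < N})) := by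
      ext η
      simp only [OM, Set.mem_ofPred_eq, Set.mem_union, Set.mem_iUnion, Set.mem_inter_iff]
    rw [h1]
    refine (ih y).union (MeasurableSet.iUnion fun x => MeasurableSet.iUnion fun t =>
      MeasurableSet.iUnion fun z => (ih x).inter (MeasurableSet.inter ?_ (MeasurableSet.const _)))
    have h2 : Measurable (fun η : Ix → Bool => η (x, t, z)) := measurable_pi_apply _
    exact h2 (measurableSet_singleton true)

theorem opn_meas (N : ℕ) (S : Set (List ℕ)) (x : List ℕ) :
    MeasurableSet {η : Ix → Bool | Opn N η S x} := by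
  have h1 : {η : Ix → Bool | Opn N η S x} = ⋃ m, {η | OM N η S m x} := by
    ext η
    simp only [Set.mem_ofPred_eq, Set.mem_iUnion]
    exact opn_iff N η S x
  rw [h1]
  exact MeasurableSet.iUnion fun m => measurable_OM N S m x

theorem opn_mono (N : ℕ) (η : Ix → Bool) (S S' : Set (List ℕ)) (x : List ℕ) (hS : S ⊆ S')
    (h : Opn N η S x) : Opn N η S' x := by
  induction h with
  | start h1 h2 h3 => exact Opn.start (hS h1) h2 h3
  | step _ h2 h3 h4 h5 ih => exact Opn.step ih h2 h3 h4 h5

theorem opn_empty (N : ℕ) (η : Ix → Bool) (x : List ℕ) : ¬ Opn N η ∅ x := by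
  intro h
  induction h with
  | start h1 _ _ => exact h1
  | step _ _ _ _ _ ih => exact ih

theorem ae_bet (mu : ℝ≥0) (N : ℕ) (Z : Env) : ∀ᵐ η ∂(PB mu N Z), ∀ x t z : List ℕ,
    η (x, t, z) = true → bet N Z x t z ≠ 0 := by
  rw [ae_all_iff]
  intro x
  rw [ae_all_iff]
  intro t
  rw [ae_all_iff]
  intro z
  by_cases hb : bet N Z x t z = 0
  · have hmp : MeasurePreserving (Function.eval ((x, t, z) : Ix)) (PB mu N Z)
        (bern (mu * bet N Z x t z)) :=
      measurePreserving_eval_infinitePi
        (fun i : Ix => bern (mu * bet N Z i.1 i.2.1 i.2.2)) (x, t, z)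
    have h0 : bern (mu * bet N Z x t z) {true} = 0 := by
      rw [hb, mul_zero]
      simp [bern]
    have h1 : (PB mu N Z) {η : Ix → Bool | η (x, t, z) = true} = 0 := by
      rw [← h0, ← hmp.measure_preimage (measurableSet_singleton true).nullMeasurableSet]
      rfl
    have h2 : ∀ᵐ η ∂(PB mu N Z), ¬ (η (x, t, z) = true) := by
      rw [ae_iff]
      simpa using h1
    filter_upwards [h2] with η hη h
    exact absurd h hη
  · exact Filter.Eventually.of_forall fun η _ => hb

theorem main : TaskOpn := by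
  refine ⟨opn_meas, ?_, opn_mono, ?_, ae_bet, opn_empty⟩
  · intro mu N Z S
    unfold Lam
    refine Measurable.const_mul ?_ _
    refine Finset.measurable_sum _ fun x _ => ?_
    exact Measurable.ite (opn_meas N S x) measurable_const measurable_const
  · intro mu N Z η S S' hS
    unfold Lam
    refine mul_le_mul_right ?_ _
    refine Finset.sum_le_sum fun x _ => ?_
    by_cases h : Opn N η S x
    · rw [if_pos h, if_pos (opn_mono N η S S' x hS h)]
    · rw [if_neg h]
      exact zero_le

end Pool.Agent.W239.FRO
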